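import Mathlib

set_option autoImplicit false

namespace Pool.Agent.KS6_44.EZ

open Polynomial Set MeasureTheory Metric

/-- the `L_q` norm on `[-1,1]` of the `k`-th derivative -/
noncomputable def num (q : ℝ) (k : ℕ) (P : ℂ[X]) : ℝ :=
  (∫ x in (-1:ℝ)..1, ‖(derivative^[k] P).eval (x:ℂ)‖ ^ q) ^ (1 / q)

/-- the uniform norm on `[-1,1]` -/
noncomputable def den (P : ℂ[X]) : ℝ := sSup ((fun x : ℝ => ‖P.eval (x:ℂ)‖) '' Icc (-1) 1)

/-- the polynomial with the factors `a X - b` -/
noncomputable def pol {n : ℕ} (p : Fin n → ℂ × ℂ) : ℂ[X] := ∏ j, (C (p j).1 * X - C (p j).2)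

section cont

/-- evaluation of continuous functions at a point -/
noncomputable def ev {T : Type} [TopologicalSpace T] (p : T) : C(T, ℂ) →+* ℂ where
  toFun f := f p
  map_one' := rfl
  map_mul' _ _ := rfl
  map_zero' := rfl
  map_add' _ _ := rfl

theorem cont_eval {T : Type} [TopologicalSpace T] (Q : C(T, ℂ)[X]) :
    Continuous fun y : T × ℝ => (Q.map (ev y.1)).eval (y.2:ℂ) := by
  have e : (fun y : T × ℝ => (Q.map (ev y.1)).eval (y.2:ℂ)) =
      fun y : T × ℝ => ∑ i ∈ Finset.range (Q.natDegree + 1), (Q.coeff i) y.1 * (y.2:ℂ) ^ i := by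
    funext y
    rw [eval_map, eval₂_eq_sum_range]
    rfl
  rw [e]
  refine continuous_finsetSum _ fun i _ => ?_
  fun_prop

/-- the product as a polynomial with continuous coefficients -/
noncomputable def gp (n : ℕ) : C(Fin n → ℂ × ℂ, ℂ)[X] :=
  ∏ j, (C (⟨fun p => (p j).1, by fun_prop⟩ : C(Fin n → ℂ × ℂ, ℂ)) * X -
    C (⟨fun p => (p j).2, by fun_prop⟩ : C(Fin n → ℂ × ℂ, ℂ)))

theorem gp_map {n : ℕ} (p : Fin n → ℂ × ℂ) : (gp n).map (ev p) = pol p := by
  unfold gp pol
  rw [Polynomial.map_prod]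
  refine Finset.prod_congr rfl fun j _ => ?_
  simp only [Polynomial.map_sub, Polynomial.map_mul, Polynomial.map_C, Polynomial.map_X]
  rfl

theorem cont_der (n k : ℕ) :
    Continuous fun y : (Fin n → ℂ × ℂ) × ℝ => (derivative^[k] (pol y.1)).eval (y.2:ℂ) := by
  have h := cont_eval (derivative^[k] (gp n))
  refine h.congr fun y => ?_
  rw [← Polynomial.iterate_derivative_map, gp_map]

theorem cont_num (n k : ℕ) :
    Continuous fun y : (Fin n → ℂ × ℂ) × ℝ => num (max y.2 1) k (pol y.1) := by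
  unfold num
  have h1 : Continuous (Function.uncurry fun (y : (Fin n → ℂ × ℂ) × ℝ) (x : ℝ) =>
      ‖(derivative^[k] (pol y.1)).eval (x:ℂ)‖ ^ (max y.2 1)) := by
    unfold Function.uncurry
    refine Continuous.rpow ?_ (by fun_prop) ?_
    · have := (cont_der n k).comp
        (f := fun z : ((Fin n → ℂ × ℂ) × ℝ) × ℝ => (z.1.1, z.2)) (by fun_prop)
      exact this.norm
    · intro z
      exact Or.inr (lt_of_lt_of_le one_pos (le_max_right _ _))
  have h2 := intervalIntegral.continuous_parametric_intervalIntegral_of_continuous'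
    (μ := volume) h1 (-1) 1
  refine Continuous.rpow h2 ?_ ?_
  · refine continuous_const.div (by fun_prop) fun z => ?_
    exact (lt_of_lt_of_le one_pos (le_max_right _ _)).ne'
  · intro z
    exact Or.inr (by
      have : (0:ℝ) < max z.2 1 := lt_of_lt_of_le one_pos (le_max_right _ _)
      positivity)

theorem cont_den (n : ℕ) : Continuous fun p : Fin n → ℂ × ℂ => den (pol p) := by
  unfold den
  refine IsCompact.continuous_sSup (f := fun (p : Fin n → ℂ × ℂ) (x : ℝ) => ‖(pol p).eval (x:ℂ)‖)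
    isCompact_Icc ?_
  have := cont_der n 0
  simp only [Function.iterate_zero, id_eq] at this
  exact this.norm

end cont

theorem bdd (P : ℂ[X]) : BddAbove ((fun x : ℝ => ‖P.eval (x:ℂ)‖) '' Icc (-1) 1) :=
  (isCompact_Icc.image (by fun_prop)).bddAbove

theorem le_den (P : ℂ[X]) {x : ℝ} (hx : x ∈ Icc (-1:ℝ) 1) : ‖P.eval (x:ℂ)‖ ≤ den P :=
  le_csSup (bdd P) ⟨x, hx, rfl⟩

theorem den_le (P : ℂ[X]) {M : ℝ} (h : ∀ x ∈ Icc (-1:ℝ) 1, ‖P.eval (x:ℂ)‖ ≤ M) : den P ≤ M :=
  csSup_le (Nonempty.image _ ⟨0, by norm_num⟩) (by rintro _ ⟨x, hx, rfl⟩; exact h x hx)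

theorem den_nonneg (P : ℂ[X]) : 0 ≤ den P :=
  (norm_nonneg _).trans (le_den P (x := 0) (by norm_num))

theorem den_pos {P : ℂ[X]} (hP : P ≠ 0) : 0 < den P := by
  rcases (den_nonneg P).lt_or_eq with h | h
  · exact h
  exfalso
  apply hP
  refine Polynomial.eq_zero_of_infinite_isRoot P ?_
  refine Set.Infinite.mono (s := (fun x : ℝ => (x:ℂ)) '' Icc (-1) 1) ?_ ?_
  · rintro _ ⟨x, hx, rfl⟩
    have := le_den P hx
    rw [← h] at this
    exact norm_le_zero_iff.1 this
  · exact (Set.Icc_infinite (by norm_num)).image (Complex.ofReal_injective.injOn)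

theorem den_smul (c : ℂ) (P : ℂ[X]) : den (C c * P) = ‖c‖ * den P := by
  apply le_antisymm
  · refine den_le _ fun x hx => ?_
    rw [eval_mul, eval_C, norm_mul]
    exact mul_le_mul_of_nonneg_left (le_den P hx) (norm_nonneg _)
  · by_cases hc : c = 0
    · subst hc
      simpa using den_nonneg _
    · have hc' : 0 < ‖c‖ := norm_pos_iff.2 hc
      rw [← le_div_iff₀' hc']
      refine den_le _ fun x hx => ?_
      rw [le_div_iff₀' hc', ← norm_mul]
      have := le_den (C c * P) hx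
      rwa [eval_mul, eval_C] at this

theorem num_smul {q : ℝ} (hq : 1 ≤ q) (k : ℕ) (c : ℂ) (P : ℂ[X]) :
    num q k (C c * P) = ‖c‖ * num q k P := by
  unfold num
  have e : ∀ x : ℝ, ‖(derivative^[k] (C c * P)).eval (x:ℂ)‖ ^ q =
      ‖c‖ ^ q * ‖(derivative^[k] P).eval (x:ℂ)‖ ^ q := by
    intro x
    rw [Polynomial.iterate_derivative_C_mul, eval_mul, eval_C, norm_mul,
      Real.mul_rpow (norm_nonneg _) (norm_nonneg _)]
  simp_rw [e]
  rw [intervalIntegral.integral_const_mul, Real.mul_rpow (by positivity)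
    (intervalIntegral.integral_nonneg (by norm_num) fun x _ => by positivity),
    ← Real.rpow_mul (norm_nonneg _), mul_one_div_cancel (by linarith), Real.rpow_one]

theorem num_nonneg (q : ℝ) (k : ℕ) (P : ℂ[X]) : 0 ≤ num q k P :=
  Real.rpow_nonneg (intervalIntegral.integral_nonneg (by norm_num) fun x _ => by positivity) _

theorem num_one (k : ℕ) (P : ℂ[X]) :
    num 1 k P = ∫ x in (-1:ℝ)..1, ‖(derivative^[k] P).eval (x:ℂ)‖ := by
  unfold num
  simp

end Pool.Agent.KS6_44.EZ
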