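import Pool.Agent.KS6_44.EZ.A

set_option autoImplicit false

namespace Pool.Agent.KS6_44.EZ

open Polynomial Set MeasureTheory Metric

theorem sqrt_gap (r e : ℝ) (he : 0 < e) : e ^ 2 / (2 * |r| + e) ≤ √(r ^ 2 + e ^ 2) - |r| := by
  have h1 : √(r ^ 2 + e ^ 2) ≤ |r| + e := by
    rw [Real.sqrt_le_left (by positivity)]
    nlinarith [abs_nonneg r, sq_abs r]
  have h2 : |r| ≤ √(r ^ 2 + e ^ 2) := by
    rw [← Real.sqrt_sq_eq_abs]
    exact Real.sqrt_le_sqrt (by nlinarith)
  have h3 : √(r ^ 2 + e ^ 2) ^ 2 = r ^ 2 + e ^ 2 := Real.sq_sqrt (by positivity)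
  rw [div_le_iff₀ (by positivity)]
  nlinarith [sq_abs r, abs_nonneg r]

theorem int_right (B e z : ℝ) (hB : 0 < B) (he : 0 < e) :
    ∫ x in z..(z + 1), e ^ 2 / (2 * (B * |x - z|) + e) =
      e ^ 2 / (2 * B) * Real.log (1 + 2 * B / e) := by
  have h : ∫ x in z..(z + 1), e ^ 2 / (2 * (B * |x - z|) + e) =
      ∫ x in z..(z + 1), e ^ 2 / (2 * (B * (x - z)) + e) := by
    refine intervalIntegral.integral_congr fun x hx => ?_
    rw [uIcc_of_le (by linarith)] at hx
    rw [abs_of_nonneg (by linarith [hx.1])]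
  rw [h]
  have hd : ∀ x ∈ uIcc z (z + 1), HasDerivAt
      (fun x => e ^ 2 / (2 * B) * Real.log (2 * (B * (x - z)) + e))
      (e ^ 2 / (2 * (B * (x - z)) + e)) x := by
    intro x hx
    rw [uIcc_of_le (by linarith)] at hx
    have hp : 0 < 2 * (B * (x - z)) + e := by
      have := mul_nonneg hB.le (sub_nonneg.2 hx.1)
      linarith
    have h1 : HasDerivAt (fun x => 2 * (B * (x - z)) + e) (2 * (B * 1)) x :=
      ((((hasDerivAt_id x).sub_const z).const_mul B).const_mul 2).add_const e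
    have h2 := (h1.log hp.ne').const_mul (e ^ 2 / (2 * B))
    have h3 : e ^ 2 / (2 * (B * (x - z)) + e) =
        e ^ 2 / (2 * B) * (2 * (B * 1) / (2 * (B * (x - z)) + e)) := by
      field_simp
    rw [h3]
    exact h2
  rw [intervalIntegral.integral_eq_sub_of_hasDerivAt hd]
  · have e1 : 2 * (B * (z + 1 - z)) + e = e * (1 + 2 * B / e) := by field_simp; ring
    have e2 : 2 * (B * (z - z)) + e = e := by ring
    rw [e1, e2, Real.log_mul he.ne' (by positivity)]
    ring
  · refine ContinuousOn.intervalIntegrable fun x hx => ?_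
    rw [uIcc_of_le (by linarith)] at hx
    have hp : 0 < 2 * (B * (x - z)) + e := by
      have := mul_nonneg hB.le (sub_nonneg.2 hx.1)
      linarith
    exact (ContinuousAt.div (f := fun _ => e ^ 2) (g := fun x => 2 * (B * (x - z)) + e)
      (by fun_prop) (by fun_prop) hp.ne').continuousWithinAt

theorem int_left (B e z : ℝ) (hB : 0 < B) (he : 0 < e) :
    ∫ x in (z - 1)..z, e ^ 2 / (2 * (B * |x - z|) + e) =
      e ^ 2 / (2 * B) * Real.log (1 + 2 * B / e) := by
  have h := intervalIntegral.integral_comp_sub_left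
    (f := fun x => e ^ 2 / (2 * (B * |x - z|) + e)) (a := z) (b := z + 1) (2 * z)
  rw [show 2 * z - (z + 1) = z - 1 by ring, show 2 * z - z = z by ring] at h
  rw [← h, ← int_right B e z hB he]
  refine intervalIntegral.integral_congr fun x _ => ?_
  rw [show 2 * z - x - z = -(x - z) by ring, abs_neg]

theorem gap_int (r : ℝ[X]) (z : ℝ) (hz : z ∈ Icc (-1:ℝ) 1) (hr : r.eval z = 0) :
    ∃ B : ℝ, 0 < B ∧ ∀ e : ℝ, 0 < e → e ^ 2 / (2 * B) * Real.log (1 + 2 * B / e) ≤
      (∫ x in (-1:ℝ)..1, √(r.eval x ^ 2 + e ^ 2)) - ∫ x in (-1:ℝ)..1, |r.eval x| := by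
  obtain ⟨s, hs⟩ := dvd_iff_isRoot.2 hr
  obtain ⟨B0, hB0⟩ := isCompact_Icc.exists_bound_of_continuousOn
    (s := Icc (-1:ℝ) 1) (f := fun x => s.eval x) (by fun_prop)
  refine ⟨|B0| + 1, by positivity, fun e he => ?_⟩
  set B := |B0| + 1 with hB
  have hBp : 0 < B := by positivity
  have hle : ∀ x ∈ Icc (-1:ℝ) 1, |r.eval x| ≤ B * |x - z| := by
    intro x hx
    rw [hs, eval_mul, eval_sub, eval_X, eval_C, abs_mul, mul_comm]
    refine mul_le_mul_of_nonneg_right ?_ (abs_nonneg _)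
    have := hB0 x hx
    rw [Real.norm_eq_abs] at this
    have := le_abs_self B0
    linarith
  have i1 : IntervalIntegrable (fun x => √(r.eval x ^ 2 + e ^ 2)) volume (-1:ℝ) 1 :=
    Continuous.intervalIntegrable (by fun_prop) _ _
  have i2 : IntervalIntegrable (fun x => |r.eval x|) volume (-1:ℝ) 1 :=
    Continuous.intervalIntegrable (by fun_prop) _ _
  rw [← intervalIntegral.integral_sub i1 i2]
  have hcont : Continuous fun x : ℝ => e ^ 2 / (2 * (B * |x - z|) + e) := by
    refine Continuous.div (by fun_prop) (by fun_prop) fun x => ?_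
    positivity
  have hmono : ∫ x in (-1:ℝ)..1, e ^ 2 / (2 * (B * |x - z|) + e) ≤
      ∫ x in (-1:ℝ)..1, (√(r.eval x ^ 2 + e ^ 2) - |r.eval x|) := by
    refine intervalIntegral.integral_mono_on (by norm_num) (hcont.intervalIntegrable _ _)
      (i1.sub i2) fun x hx => ?_
    refine le_trans ?_ (sqrt_gap (r.eval x) e he)
    refine div_le_div_of_nonneg_left (by positivity) (by positivity) ?_
    linarith [hle x hx]
  refine le_trans ?_ hmono
  have hnn : ∀ x : ℝ, 0 ≤ e ^ 2 / (2 * (B * |x - z|) + e) := fun x => by positivity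
  rcases le_total z 0 with h0 | h0
  · rw [← int_right B e z hBp he]
    exact intervalIntegral.integral_mono_interval hz.1 (by linarith) (by linarith)
      (Filter.Eventually.of_forall fun x => hnn x) (hcont.intervalIntegrable _ _)
  · rw [← int_left B e z hBp he]
    exact intervalIntegral.integral_mono_interval (by linarith) (by linarith) hz.2
      (Filter.Eventually.of_forall fun x => hnn x) (hcont.intervalIntegrable _ _)

theorem gap_small (r : ℝ[X]) (z : ℝ) (hz : z ∈ Icc (-1:ℝ) 1) (hr : r.eval z = 0) (κ K : ℝ)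
    (hκ : 0 < κ) : ∃ ε : ℝ, 0 < ε ∧
      K * ε ^ 2 < (∫ x in (-1:ℝ)..1, √(r.eval x ^ 2 + (ε * κ) ^ 2)) -
        ∫ x in (-1:ℝ)..1, |r.eval x| := by
  obtain ⟨B, hB, h⟩ := gap_int r z hz hr
  set A := 2 * B * K / κ ^ 2 with hA
  set ε := 2 * B / (κ * Real.exp A) with hε
  have hεp : 0 < ε := by positivity
  refine ⟨ε, hεp, lt_of_lt_of_le ?_ (h (ε * κ) (by positivity))⟩
  have e1 : 2 * B / (ε * κ) = Real.exp A := by
    rw [hε]; field_simp
  have e2 : A < Real.log (1 + 2 * B / (ε * κ)) := by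
    rw [e1, Real.lt_log_iff_exp_lt (by positivity)]
    linarith
  have e3 : K * ε ^ 2 = (ε * κ) ^ 2 / (2 * B) * A := by
    rw [hA]; field_simp
  rw [e3]
  exact mul_lt_mul_of_pos_left e2 (by positivity)

end Pool.Agent.KS6_44.EZ
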