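import Pool.Agent.KS6_44.EZ.B

set_option autoImplicit false

namespace Pool.Agent.KS6_44.EZ

open Polynomial Set MeasureTheory Metric

/-- the segment `[-1,1]` in the complex plane -/
def seg : Set ℂ := (fun x : ℝ => (x:ℂ)) '' Icc (-1) 1

theorem seg_convex : Convex ℝ seg :=
  (convex_Icc (-1:ℝ) 1).linear_image Complex.ofRealCLM.toLinearMap

theorem seg_compact : IsCompact seg := isCompact_Icc.image Complex.continuous_ofReal

theorem root_step (P : ℂ[X]) (h : 0 < P.natDegree) (hP : ∀ z, P.eval z = 0 → z ∈ seg) :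
    (derivative P).natDegree = P.natDegree - 1 ∧ ∀ z, (derivative P).eval z = 0 → z ∈ seg := by
  have hd : (derivative P).degree = ((P.natDegree - 1 : ℕ) : WithBot ℕ) :=
    degree_derivative h.ne'
  have hne : derivative P ≠ 0 := by
    intro h0
    rw [h0, degree_zero] at hd
    exact absurd hd (by simp)
  refine ⟨natDegree_eq_of_degree_eq_some hd, fun z hz => ?_⟩
  have h1 := rootSet_derivative_subset_convexHull_rootSet (P := P)
    (natDegree_pos_iff_degree_pos.1 h)
  have h2 : z ∈ P.derivative.rootSet ℂ := by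
    rw [mem_rootSet]
    exact ⟨hne, by simpa using hz⟩
  have h3 : P.rootSet ℂ ⊆ seg := by
    intro w hw
    rw [mem_rootSet] at hw
    exact hP w (by simpa using hw.2)
  exact convexHull_min h3 seg_convex (h1 h2)

theorem root_seg (P : ℂ[X]) (hP : ∀ z, P.eval z = 0 → z ∈ seg) :
    ∀ j : ℕ, j ≤ P.natDegree → (derivative^[j] P).natDegree = P.natDegree - j ∧
      ∀ z, (derivative^[j] P).eval z = 0 → z ∈ seg := by
  intro j
  induction j with
  | zero => intro _; exact ⟨by simp, by simpa using hP⟩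
  | succ j ih =>
    intro hj
    obtain ⟨h1, h2⟩ := ih (by omega)
    have h3 := root_step (derivative^[j] P) (by omega) h2
    rw [Function.iterate_succ_apply']
    refine ⟨by rw [h3.1, h1]; omega, h3.2⟩

theorem pol_real {n : ℕ} (t : Fin n → ℝ) :
    pol (fun j => ((1:ℂ), (t j:ℂ))) = (∏ j, (X - C (t j)) : ℝ[X]).map (algebraMap ℝ ℂ) := by
  rw [Polynomial.map_prod]
  unfold pol
  refine Finset.prod_congr rfl fun j _ => ?_
  simp

theorem eval_real (r : ℝ[X]) (x : ℝ) :
    (r.map (algebraMap ℝ ℂ)).eval (x:ℂ) = ((r.eval x : ℝ) : ℂ) := by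
  rw [eval_map_algebraMap]
  exact Polynomial.aeval_ofReal r x

theorem improve (n k : ℕ) (hk : k < n) (t : Fin n → ℝ) (ht : ∀ j, t j ∈ Icc (-1:ℝ) 1) :
    ∃ P : ℂ[X], P.natDegree = n ∧ (∀ z ∈ seg, P.eval z ≠ 0) ∧
      num 1 k (pol fun j => ((1:ℂ), (t j:ℂ))) * den P <
        num 1 k P * den (pol fun j => ((1:ℂ), (t j:ℂ))) := by
  set R : ℝ[X] := ∏ j, (X - C (t j)) with hR
  set P0 := pol (fun j => ((1:ℂ), (t j:ℂ))) with hP0
  have hP0R : P0 = R.map (algebraMap ℝ ℂ) := pol_real t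
  have hmon : R.Monic := monic_prod_of_monic _ _ fun j _ => monic_X_sub_C _
  have hdeg : R.natDegree = n := by
    rw [hR, natDegree_prod_of_monic _ _ fun j _ => monic_X_sub_C _]
    simp
  have hdeg0 : P0.natDegree = n := by
    rw [hP0R, natDegree_map, hdeg]
  have hroots : ∀ z, P0.eval z = 0 → z ∈ seg := by
    intro z hz
    rw [hP0, pol, eval_prod, Finset.prod_eq_zero_iff] at hz
    obtain ⟨j, -, hj⟩ := hz
    simp only [map_one, one_mul, eval_sub, eval_X, eval_C, sub_eq_zero] at hj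
    exact ⟨t j, ht j, hj.symm⟩
  obtain ⟨hd, hr⟩ := root_seg P0 hroots k (by omega)
  obtain ⟨z, hz⟩ := IsAlgClosed.exists_root (derivative^[k] P0) (by
    intro h0
    have h1 : (derivative^[k] P0).natDegree = 0 := natDegree_eq_of_degree_eq_some (by simpa using h0)
    omega)
  obtain ⟨ζ, hζ, rfl⟩ := hr z hz
  set r : ℝ[X] := derivative^[k] R with hrdef
  have hder0 : ∀ x : ℝ, (derivative^[k] P0).eval (x:ℂ) = ((r.eval x : ℝ) : ℂ) := by
    intro x
    rw [hP0R, Polynomial.iterate_derivative_map, eval_real]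
  have hrζ : r.eval ζ = 0 := by
    have h1 := hder0 ζ
    have h2 : (derivative^[k] P0).eval (ζ:ℂ) = 0 := hz
    rw [h2] at h1
    exact_mod_cast h1.symm
  have hP0ne : P0 ≠ 0 := by
    intro h0
    rw [h0, natDegree_zero] at hdeg0
    omega
  set M := den P0 with hM
  have hMp : 0 < M := den_pos hP0ne
  set L : ℝ := 3 ^ k with hL
  set N0 := num 1 k P0 with hN0
  obtain ⟨ε, hε, hgap⟩ := gap_small r ζ hζ hrζ (k.factorial : ℝ) (N0 * L ^ 2 / (2 * M ^ 2))
    (by positivity)
  set P : ℂ[X] := P0 + C ((ε:ℂ) * Complex.I) * (X + C 2) ^ k with hPdef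
  have hev : ∀ x : ℝ, P.eval (x:ℂ) = ((R.eval x : ℝ) : ℂ) + ((ε * (x + 2) ^ k : ℝ) : ℂ) *
      Complex.I := by
    intro x
    rw [hPdef, eval_add, hP0R, eval_real]
    simp only [eval_mul, eval_C, eval_pow, eval_add, eval_X]
    push_cast
    ring
  have hnorm : ∀ a b : ℝ, ‖(a:ℂ) + (b:ℂ) * Complex.I‖ = √(a ^ 2 + b ^ 2) := by
    intro a b
    rw [Complex.norm_def, Complex.normSq_add_mul_I]
  have hder : ∀ x : ℝ, (derivative^[k] P).eval (x:ℂ) = ((r.eval x : ℝ) : ℂ) +
      ((ε * (k.factorial : ℝ) : ℝ) : ℂ) * Complex.I := by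
    intro x
    rw [hPdef, iterate_map_add, eval_add, hder0,
      Polynomial.iterate_derivative_C_mul, iterate_derivative_X_add_pow]
    simp only [Nat.descFactorial_self, tsub_self, pow_zero, eval_mul, eval_C, eval_natCast,
      nsmul_eq_mul, mul_one]
    push_cast
    ring
  refine ⟨P, ?_, ?_, ?_⟩
  · rw [hPdef, natDegree_add_eq_left_of_natDegree_lt, hdeg0]
    rw [hdeg0]
    refine lt_of_le_of_lt (natDegree_C_mul_le _ _) ?_
    refine lt_of_le_of_lt natDegree_pow_le ?_
    rw [natDegree_X_add_C]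
    omega
  · rintro _ ⟨x, hx, rfl⟩ h0
    simp only at h0
    rw [hev] at h0
    have h1 := congrArg Complex.im h0
    simp only [Complex.add_im, Complex.ofReal_im, Complex.mul_im, Complex.ofReal_re, Complex.I_im,
      Complex.I_re, mul_one, mul_zero, zero_add, add_zero, Complex.zero_im] at h1
    have h2 : 0 < ε * (x + 2) ^ k := by
      have := hx.1
      have : 0 < x + 2 := by linarith
      positivity
    linarith
  · have hden : den P ≤ M + ε ^ 2 * L ^ 2 / (2 * M) := by
      refine den_le _ fun x hx => ?_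
      rw [hev, hnorm]
      rw [Real.sqrt_le_left (by positivity)]
      have h1 : R.eval x ^ 2 ≤ M ^ 2 := by
        have := le_den P0 hx
        rw [hP0R, eval_real, Complex.norm_real, Real.norm_eq_abs] at this
        rw [← sq_abs]
        have h2 : |R.eval x| ≤ M := by rw [hM, hP0R]; exact this
        exact pow_le_pow_left₀ (abs_nonneg _) h2 2
      have h2 : (x + 2) ^ k ≤ L := by
        rw [hL]
        exact pow_le_pow_left₀ (by linarith [hx.1]) (by linarith [hx.2]) k
      have h3 : 0 ≤ (x + 2) ^ k := pow_nonneg (by linarith [hx.1]) k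
      have h4 : ((x + 2) ^ k) ^ 2 ≤ L ^ 2 := pow_le_pow_left₀ h3 h2 2
      have h5 : (M + ε ^ 2 * L ^ 2 / (2 * M)) ^ 2 = M ^ 2 + ε ^ 2 * L ^ 2 +
          (ε ^ 2 * L ^ 2 / (2 * M)) ^ 2 := by
        field_simp
        ring
      rw [h5]
      have h6 : (ε * (x + 2) ^ k) ^ 2 ≤ ε ^ 2 * L ^ 2 := by
        rw [mul_pow]
        exact mul_le_mul_of_nonneg_left h4 (by positivity)
      have h7 : 0 ≤ (ε ^ 2 * L ^ 2 / (2 * M)) ^ 2 := by positivity
      linarith
    have hnum0 : N0 = ∫ x in (-1:ℝ)..1, |r.eval x| := by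
      rw [hN0, num_one]
      refine intervalIntegral.integral_congr fun x _ => ?_
      rw [hder0, Complex.norm_real, Real.norm_eq_abs]
    have hnum1 : num 1 k P = ∫ x in (-1:ℝ)..1, √(r.eval x ^ 2 + (ε * (k.factorial : ℝ)) ^ 2) := by
      rw [num_one]
      refine intervalIntegral.integral_congr fun x _ => ?_
      rw [hder, hnorm]
    rw [← hnum1, ← hnum0] at hgap
    have hN0n : 0 ≤ N0 := num_nonneg _ _ _
    have a1 : N0 * den P ≤ N0 * (M + ε ^ 2 * L ^ 2 / (2 * M)) :=
      mul_le_mul_of_nonneg_left hden hN0n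
    have a2 : (N0 + N0 * L ^ 2 / (2 * M ^ 2) * ε ^ 2) * M < num 1 k P * M :=
      mul_lt_mul_of_pos_right (by linarith) hMp
    have a3 : (N0 + N0 * L ^ 2 / (2 * M ^ 2) * ε ^ 2) * M = N0 * (M + ε ^ 2 * L ^ 2 / (2 * M)) := by
      field_simp
    linarith

end Pool.Agent.KS6_44.EZ
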