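import Pool.Agent.KS6_44.EZ.C

set_option autoImplicit false

namespace Pool.Agent.KS6_44.EZ

open Polynomial Set MeasureTheory Metric

/-- every polynomial of degree `n` is a multiple of a product of `X - z` -/
theorem fac : ∀ (n : ℕ) (P : ℂ[X]), P.natDegree = n →
    ∃ (c : ℂ) (z : Fin n → ℂ), P = C c * pol (fun j => ((1:ℂ), z j)) := by
  intro n
  induction n with
  | zero =>
    intro P hP
    refine ⟨P.coeff 0, fun j => 0, ?_⟩
    unfold pol
    simpa using eq_C_of_natDegree_eq_zero hP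
  | succ n ih =>
    intro P hP
    obtain ⟨a, ha⟩ := IsAlgClosed.exists_root P (by
      intro h0
      have := natDegree_eq_of_degree_eq_some (n := 0) (by simpa using h0)
      omega)
    obtain ⟨Q, hQ⟩ := dvd_iff_isRoot.2 ha
    have hQ0 : Q ≠ 0 := by
      rintro rfl
      rw [mul_zero] at hQ
      rw [hQ, natDegree_zero] at hP
      omega
    have hQd : Q.natDegree = n := by
      rw [hQ, natDegree_mul (X_sub_C_ne_zero a) hQ0, natDegree_X_sub_C] at hP
      omega
    obtain ⟨c, z, hz⟩ := ih Q hQd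
    refine ⟨c, Fin.cons a z, ?_⟩
    rw [hQ, hz]
    unfold pol
    rw [Fin.prod_univ_succ]
    simp only [Fin.cons_zero, Fin.cons_succ, map_one, one_mul]
    ring

theorem pol_root {n : ℕ} (z : Fin n → ℂ) (j : Fin n) :
    (pol (fun j => ((1:ℂ), z j))).eval (z j) = 0 := by
  unfold pol
  rw [eval_prod, Finset.prod_eq_zero_iff]
  exact ⟨j, Finset.mem_univ _, by simp⟩

theorem pol_one_ne {n : ℕ} (z : Fin n → ℂ) : pol (fun j => ((1:ℂ), z j)) ≠ 0 := by
  unfold pol
  rw [Finset.prod_ne_zero_iff]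
  intro j _
  simpa using X_sub_C_ne_zero (z j)

/-- The constants: level, competing polynomial, thickness and range of the exponents. -/
theorem tube (n k : ℕ) (hk : k < n) : ∃ (c δ q₀ : ℝ) (P : ℂ[X]), 0 < δ ∧ 1 < q₀ ∧
    P.natDegree = n ∧ (∀ z : ℂ, (∃ x ∈ seg, dist z x < δ) → P.eval z ≠ 0) ∧
    (∀ q ∈ Icc 1 q₀, c * den P < num q k P) ∧
    (∀ q ∈ Icc 1 q₀, ∀ z : Fin n → ℂ, (∀ j, ∃ x ∈ seg, dist (z j) x ≤ δ) →
      num q k (pol fun j => ((1:ℂ), z j)) < c * den (pol fun j => ((1:ℂ), z j))) := by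
  have hZc : IsCompact (Set.pi univ fun _ : Fin n => Icc (-1:ℝ) 1) :=
    isCompact_univ_pi fun _ => isCompact_Icc
  set φ : (Fin n → ℝ) → (Fin n → ℂ × ℂ) := fun t j => ((1:ℂ), (t j:ℂ)) with hφ
  have hφc : Continuous φ := by fun_prop
  have cn := cont_num n k
  have cd := cont_den n
  have c1 : Continuous fun t : Fin n → ℝ => num 1 k (pol (φ t)) := by
    have := cn.comp (f := fun t : Fin n → ℝ => (φ t, (1:ℝ))) (by fun_prop)
    simpa [Function.comp_def] using this
  have c2 : Continuous fun t : Fin n → ℝ => den (pol (φ t)) := cd.comp hφc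
  obtain ⟨t0, ht0, hmax⟩ := hZc.exists_isMaxOn ⟨fun _ => 0, fun _ _ => by norm_num⟩
    (f := fun t => num 1 k (pol (φ t)) / den (pol (φ t)))
    (c1.continuousOn.div c2.continuousOn fun t _ => (den_pos (pol_one_ne _)).ne')
  obtain ⟨P, hPd, hPs, hP⟩ := improve n k hk t0 fun j => ht0 j (mem_univ j)
  have hP0 : P ≠ 0 := by
    rintro rfl
    exact hPs 0 ⟨0, by norm_num, by simp⟩ (by simp)
  have hDP := den_pos hP0
  have hD0 : 0 < den (pol (φ t0)) := den_pos (pol_one_ne _)
  have hlt : num 1 k (pol (φ t0)) / den (pol (φ t0)) < num 1 k P / den P := by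
    rw [div_lt_div_iff₀ hD0 hDP]
    exact hP
  obtain ⟨c, hc1, hc2⟩ := exists_between hlt
  -- the open set
  have hO : IsOpen {y : (Fin n → ℂ × ℂ) × ℝ | num (max y.2 1) k (pol y.1) < c * den (pol y.1)} :=
    isOpen_lt cn (continuous_const.mul (cd.comp continuous_fst))
  have hS : IsCompact ((φ '' (Set.pi univ fun _ : Fin n => Icc (-1:ℝ) 1)) ×ˢ ({1} : Set ℝ)) :=
    (hZc.image hφc).prod isCompact_singleton
  obtain ⟨δ1, hδ1, h1⟩ := hS.exists_thickening_subset_open hO (by
    rintro ⟨p, q⟩ ⟨⟨t, ht, rfl⟩, hq⟩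
    rw [mem_singleton_iff] at hq
    simp only at hq
    subst hq
    simp only [mem_ofPred_eq, max_self]
    rw [← div_lt_iff₀ (den_pos (pol_one_ne _))]
    exact lt_of_le_of_lt (hmax ht) hc1)
  obtain ⟨δ2, hδ2, h2⟩ := seg_compact.exists_thickening_subset_open
    (t := {z : ℂ | P.eval z ≠ 0}) (isOpen_ne_fun (by fun_prop) continuous_const)
    (fun z hz => hPs z hz)
  obtain ⟨a, z1, hz1⟩ := fac n P hPd
  have ha : a ≠ 0 := by
    rintro rfl
    rw [hz1] at hP0
    simp at hP0
  have cq : Continuous fun q : ℝ => num (max q 1) k (pol fun j => ((1:ℂ), z1 j)) := by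
    have := cn.comp (f := fun q : ℝ => ((fun j => ((1:ℂ), z1 j) : Fin n → ℂ × ℂ), q))
      (by fun_prop)
    simpa [Function.comp_def] using this
  have hO2 : IsOpen {q : ℝ | c * den (pol fun j => ((1:ℂ), z1 j)) <
      num (max q 1) k (pol fun j => ((1:ℂ), z1 j))} := isOpen_lt continuous_const cq
  obtain ⟨δ3, hδ3, h3⟩ := Metric.isOpen_iff.1 hO2 1 (by
    simp only [mem_ofPred_eq, max_self]
    rw [lt_div_iff₀ hDP, hz1, den_smul, num_smul le_rfl] at hc2
    have hap := norm_pos_iff.2 ha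
    nlinarith)
  refine ⟨c, min (δ1 / 2) δ2, 1 + min (δ1 / 2) (δ3 / 2), P, by positivity, ?_, hPd, ?_, ?_, ?_⟩
  · have : 0 < min (δ1 / 2) (δ3 / 2) := by positivity
    linarith
  · rintro z ⟨x, hx, hzx⟩
    refine h2 ?_
    rw [mem_thickening_iff]
    exact ⟨x, hx, lt_of_lt_of_le hzx (min_le_right _ _)⟩
  · intro q hq
    have hb : q ∈ ball (1:ℝ) δ3 := by
      rw [mem_ball, Real.dist_eq, abs_of_nonneg (by linarith [hq.1])]
      have := min_le_right (δ1 / 2) (δ3 / 2)
      linarith [hq.2]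
    have h4 := h3 hb
    simp only [mem_ofPred_eq, max_eq_left hq.1] at h4
    rw [hz1, den_smul, num_smul hq.1]
    have hap := norm_pos_iff.2 ha
    nlinarith
  · intro q hq z hz
    choose x hx hzx using hz
    choose t ht htx using hx
    have hmem : ((fun j => ((1:ℂ), z j) : Fin n → ℂ × ℂ), q) ∈
        thickening δ1 ((φ '' (Set.pi univ fun _ : Fin n => Icc (-1:ℝ) 1)) ×ˢ ({1} : Set ℝ)) := by
      rw [mem_thickening_iff]
      refine ⟨(φ t, 1), ⟨⟨t, fun j _ => ht j, rfl⟩, rfl⟩, ?_⟩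
      rw [Prod.dist_eq, max_lt_iff]
      constructor
      · rw [dist_pi_lt_iff hδ1]
        intro j
        rw [Prod.dist_eq, max_lt_iff]
        constructor
        · simpa [hφ] using hδ1
        · simp only [hφ]
          have e := htx j
          simp only at e
          rw [e]
          refine lt_of_le_of_lt (hzx j) (lt_of_le_of_lt (min_le_left _ _) (by linarith))
      · simp only
        rw [Real.dist_eq, abs_of_nonneg (by linarith [hq.1])]
        have := min_le_left (δ1 / 2) (δ3 / 2)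
        linarith [hq.2]
    have h4 := h1 hmem
    simp only [mem_ofPred_eq, max_eq_left hq.1] at h4
    exact h4

end Pool.Agent.KS6_44.EZ
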