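import Pool.Agent.KS6_44.EZ.D

set_option autoImplicit false

namespace Pool.Agent.KS6_44.EZ

open Polynomial Set MeasureTheory Metric

/-- Chebyshev's inequality for the leading coefficient, complex coefficients -/
theorem cheb (m : ℕ) (P : ℂ[X]) (hP : P.natDegree ≤ m) (hP0 : P ≠ 0) :
    ‖P.coeff m‖ ≤ 2 ^ (m - 1) * den P := by
  have hM := den_pos hP0
  set M := den P with hMdef
  by_cases hw : P.coeff m = 0
  · rw [hw, norm_zero]; positivity
  have hwp : 0 < ‖P.coeff m‖ := norm_pos_iff.2 hw
  set u : ℂ := (starRingEnd ℂ) (P.coeff m) / ‖P.coeff m‖ with hu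
  have hun : ‖u‖ = 1 := by
    rw [hu, norm_div, RCLike.norm_conj, Complex.norm_real, norm_norm, div_self hwp.ne']
  have huw : (u * P.coeff m).re = ‖P.coeff m‖ := by
    have : u * P.coeff m = (‖P.coeff m‖ : ℂ) := by
      rw [hu, div_mul_eq_mul_div, mul_comm, Complex.mul_conj, Complex.normSq_eq_norm_sq]
      push_cast
      field_simp
    rw [this, Complex.ofReal_re]
  set r : ℝ[X] := ∑ i ∈ Finset.range (m + 1), C ((u * P.coeff i).re / M) * X ^ i with hr
  have hcoeff : r.coeff m = ‖P.coeff m‖ / M := by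
    rw [hr, finsetSum_coeff]
    simp only [coeff_C_mul_X_pow]
    rw [Finset.sum_eq_single m]
    · simp [huw]
    · intro i _ hi
      simp [Ne.symm hi]
    · simp
  have hdeg : r.degree ≤ m := by
    rw [hr]
    refine (degree_sum_le _ _).trans (Finset.sup_le fun i hi => ?_)
    refine (degree_C_mul_X_pow_le _ _).trans ?_
    rw [Finset.mem_range] at hi
    exact_mod_cast (by omega : i ≤ m)
  have hev : ∀ x ∈ Icc (-1:ℝ) 1, |r.eval x| ≤ 1 := by
    intro x hx
    have h1 : r.eval x = (u * P.eval (x:ℂ)).re / M := by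
      rw [hr, eval_finsetSum, eval_eq_sum_range' (Nat.lt_succ_of_le hP), Finset.mul_sum,
        Complex.re_sum, Finset.sum_div]
      refine Finset.sum_congr rfl fun i _ => ?_
      rw [eval_mul, eval_C, eval_pow, eval_X, ← mul_assoc, ← Complex.ofReal_pow,
        Complex.re_mul_ofReal]
      ring
    rw [h1, abs_div, abs_of_pos hM, div_le_one hM]
    refine (Complex.abs_re_le_norm _).trans ?_
    rw [norm_mul, hun, one_mul]
    exact le_den P hx
  have h := Polynomial.Chebyshev.coeff_le_of_forall_abs_le_one hdeg hev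
  rw [hcoeff, div_le_iff₀ hM] at h
  exact h

theorem der_const (m : ℕ) (P : ℂ[X]) (hP : P.natDegree ≤ m) :
    derivative^[m] P = C ((m.factorial : ℂ) * P.coeff m) := by
  have h1 : (derivative^[m] P).natDegree ≤ 0 :=
    (natDegree_iterate_derivative P m).trans (by omega)
  rw [eq_C_of_natDegree_le_zero h1, coeff_iterate_derivative]
  simp [Nat.descFactorial_self]

/-- polynomials of lower degree -/
theorem low (m : ℕ) (q : ℝ) (hq : 1 ≤ q) (P : ℂ[X]) (hP : P.natDegree ≤ m) (hP0 : P ≠ 0) :
    num q m P ≤ (m.factorial : ℝ) * 2 * 2 ^ (m - 1) * den P := by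
  have h1 : num q m P ≤ 2 * ((m.factorial : ℝ) * ‖P.coeff m‖) := by
    unfold num
    rw [der_const m P hP]
    simp only [eval_C, intervalIntegral.integral_const, smul_eq_mul]
    have h2 : ‖(m.factorial : ℂ) * P.coeff m‖ = (m.factorial : ℝ) * ‖P.coeff m‖ := by
      rw [norm_mul, Complex.norm_natCast]
    rw [h2, Real.mul_rpow (by norm_num) (by positivity), ← Real.rpow_mul (by positivity),
      mul_one_div_cancel (by linarith), Real.rpow_one]
    refine mul_le_mul_of_nonneg_right ?_ (by positivity)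
    have h3 : ((1:ℝ) - -1) = 2 := by norm_num
    rw [h3]
    calc (2:ℝ) ^ (1 / q) ≤ 2 ^ (1:ℝ) := by
          refine Real.rpow_le_rpow_of_exponent_le (by norm_num) ?_
          rw [div_le_one (by linarith)]
          exact hq
      _ = 2 := Real.rpow_one 2
  have h4 := cheb m P hP hP0
  have h5 : (0:ℝ) ≤ 2 * (m.factorial : ℝ) := by positivity
  nlinarith [mul_le_mul_of_nonneg_left h4 h5]

/-- the first derivative norm of a monic polynomial -/
theorem high (m : ℕ) (P : ℂ[X]) (hP : P.natDegree = m + 1) (hm : P.Monic) :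
    ((m + 1).factorial : ℝ) ≤ num 1 m P := by
  rw [num_one]
  have h1 : (derivative^[m] P).natDegree ≤ 1 :=
    (natDegree_iterate_derivative P m).trans (by omega)
  obtain ⟨a, b, hab⟩ := exists_eq_X_add_C_of_natDegree_le_one h1
  have ha : a = ((m + 1).factorial : ℂ) := by
    have := congrArg (fun Q => Q.coeff 1) hab
    simp only [coeff_iterate_derivative, coeff_add, coeff_C_mul, coeff_X_one, coeff_C_succ,
      mul_one, add_zero] at this
    rw [← this, show 1 + m = m + 1 by ring]
    have hc : P.coeff (m + 1) = 1 := by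
      rw [← hP]; exact hm
    rw [hc]
    have : (m + 1).descFactorial m = (m + 1).factorial := by
      have h := Nat.factorial_mul_descFactorial (show m ≤ m + 1 by omega)
      simpa using h
    rw [this]
    simp
  have hna : ‖a‖ = ((m + 1).factorial : ℝ) := by rw [ha, Complex.norm_natCast]
  rw [← hna]
  have hf : ∀ x : ℝ, (derivative^[m] P).eval (x:ℂ) = a * x + b := by
    intro x
    rw [hab]; simp
  simp_rw [hf]
  have i1 : IntervalIntegrable (fun x : ℝ => ‖a * x + b‖) volume (-1) 0 :=
    Continuous.intervalIntegrable (by fun_prop) _ _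
  have i2 : IntervalIntegrable (fun x : ℝ => ‖a * x + b‖) volume 0 1 :=
    Continuous.intervalIntegrable (by fun_prop) _ _
  have i3 : IntervalIntegrable (fun x : ℝ => ‖a * ((-x : ℝ):ℂ) + b‖) volume 0 1 :=
    Continuous.intervalIntegrable (by fun_prop) _ _
  rw [← intervalIntegral.integral_add_adjacent_intervals i1 i2]
  have h2 := intervalIntegral.integral_comp_neg (fun x : ℝ => ‖a * x + b‖) (a := 0) (b := 1)
  rw [neg_zero] at h2
  rw [← h2, ← intervalIntegral.integral_add i3 i2]
  have h3 : ∫ x in (0:ℝ)..1, ‖a‖ * (2 * x) = ‖a‖ := by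
    rw [intervalIntegral.integral_const_mul, intervalIntegral.integral_const_mul, integral_id]
    norm_num
  rw [← h3]
  refine intervalIntegral.integral_mono_on (by norm_num)
    (Continuous.intervalIntegrable (by fun_prop) _ _) (i3.add i2) fun x hx => ?_
  have h4 : ‖a * (2 * x)‖ ≤ ‖a * ((-x : ℝ):ℂ) + b‖ + ‖a * x + b‖ := by
    have : a * (2 * x) = (a * x + b) - (a * ((-x : ℝ):ℂ) + b) := by push_cast; ring
    rw [this]
    exact (norm_sub_le _ _).trans (by linarith)
  have h5 : ‖a * (2 * (x:ℂ))‖ = ‖a‖ * (2 * x) := by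
    rw [norm_mul, norm_mul, Complex.norm_real, Real.norm_eq_abs, abs_of_nonneg hx.1]
    norm_num
  rw [← h5]
  exact h4

/-- the Chebyshev nodes -/
theorem nodes (n : ℕ) : ∃ t : Fin n → ℝ, (∀ j, t j ∈ Icc (-1:ℝ) 1) ∧
    den (pol fun j => ((1:ℂ), (t j:ℂ))) ≤ (2 ^ (n - 1))⁻¹ := by
  have hroots := Polynomial.Chebyshev.roots_T_real n
  have hinj := Polynomial.Chebyshev.roots_T_real_nodup n
  set f : ℕ → ℝ := fun k => Real.cos ((2 * k + 1) * Real.pi / (2 * n)) with hf
  have hlc : (Polynomial.Chebyshev.T ℝ (n:ℤ)).leadingCoeff = 2 ^ (n - 1) := by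
    rw [Polynomial.Chebyshev.leadingCoeff_T]
    simp
  have hcard : Multiset.card (Polynomial.Chebyshev.T ℝ (n:ℤ)).roots =
      (Polynomial.Chebyshev.T ℝ (n:ℤ)).natDegree := by
    rw [hroots, Polynomial.Chebyshev.natDegree_T]
    rw [Finset.card_val, Finset.card_image_of_injOn, Finset.card_range, Int.natAbs_natCast]
    exact (Finset.range n).nodup_map_iff_injOn.mp hinj
  have hprod := C_leadingCoeff_mul_prod_multiset_X_sub_C hcard
  rw [hroots, hlc] at hprod
  have h2 : (((Finset.range n).image f).val.map fun a => X - C a).prod =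
      ∏ j : Fin n, (X - C (f j)) := by
    rw [← Finset.prod_range (fun i => (X - C (f i) : ℝ[X]))]
    rw [show (((Finset.range n).image f).val.map fun a => X - C a).prod =
      ∏ a ∈ (Finset.range n).image f, (X - C a) from rfl]
    rw [Finset.prod_image]
    exact (Finset.range n).nodup_map_iff_injOn.mp hinj
  rw [h2] at hprod
  refine ⟨fun j => f j, fun j => ⟨Real.neg_one_le_cos _, Real.cos_le_one _⟩, ?_⟩
  refine den_le _ fun x hx => ?_
  rw [pol_real, eval_real, Complex.norm_real, Real.norm_eq_abs]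
  have h3 := congrArg (fun Q => Q.eval x) hprod
  simp only [eval_mul, eval_C] at h3
  have h4 : |(Polynomial.Chebyshev.T ℝ (n:ℤ)).eval x| ≤ 1 :=
    Polynomial.Chebyshev.abs_eval_T_real_le_one n (abs_le.2 hx)
  rw [← h3, abs_mul, abs_of_pos (by positivity : (0:ℝ) < 2 ^ (n - 1))] at h4
  rw [← one_div, le_div_iff₀' (by positivity)]
  exact h4

end Pool.Agent.KS6_44.EZ
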