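import Pool.Agent.KS6_44.EZ.E

set_option autoImplicit false

namespace Pool.Agent.KS6_44.EZ

open Polynomial Set MeasureTheory Metric

/-- degree `n`, no zero in `G` -/
def Adm (G : Set ℂ) (n : ℕ) (P : ℂ[X]) : Prop := P.natDegree = n ∧ ∀ z ∈ G, P.eval z ≠ 0

noncomputable def rat (q : ℝ) (k : ℕ) (P : ℂ[X]) : ℝ := num q k P / den P

theorem rat_smul {q : ℝ} (hq : 1 ≤ q) (k : ℕ) {c : ℂ} (hc : c ≠ 0) (P : ℂ[X]) :
    rat q k (C c * P) = rat q k P := by
  unfold rat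
  rw [num_smul hq, den_smul, mul_div_mul_left _ _ (norm_pos_iff.2 hc).ne']

/-- the compact set of the admissible factors -/
def KK (G : Set ℂ) : Set (ℂ × ℂ) := sphere 0 1 \ {p | p.1 ≠ 0 ∧ p.2 / p.1 ∈ G}

theorem KK_compact {G : Set ℂ} (hG : IsOpen G) : IsCompact (KK G) := by
  refine (isCompact_sphere _ _).diff ?_
  have h1 : IsOpen {p : ℂ × ℂ | p.1 ≠ 0} := isOpen_ne_fun continuous_fst continuous_const
  have h2 : ContinuousOn (fun p : ℂ × ℂ => p.2 / p.1) {p : ℂ × ℂ | p.1 ≠ 0} :=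
    continuous_snd.continuousOn.div continuous_fst.continuousOn fun p hp => hp
  exact h2.isOpen_inter_preimage h1 hG

theorem pol_ne {n : ℕ} {G : Set ℂ} {p : Fin n → ℂ × ℂ} (hp : ∀ j, p j ∈ KK G) : pol p ≠ 0 := by
  unfold pol
  rw [Finset.prod_ne_zero_iff]
  intro j _ h0
  have h1 := congrArg (fun Q => Q.coeff 1) h0
  have h2 := congrArg (fun Q => Q.coeff 0) h0
  simp only [coeff_sub, coeff_C_mul, coeff_X_one, mul_one, coeff_C_succ, sub_zero, coeff_zero,
    coeff_X_zero, mul_zero, coeff_C_zero, zero_sub, neg_eq_zero] at h1 h2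
  have h3 := (hp j).1
  rw [mem_sphere_zero_iff_norm, Prod.norm_def, h1, h2] at h3
  simp at h3

theorem pol_adm {n : ℕ} {G : Set ℂ} {p : Fin n → ℂ × ℂ} (hp : ∀ j, p j ∈ KK G) :
    ∀ z ∈ G, (pol p).eval z ≠ 0 := by
  intro z hz
  unfold pol
  rw [eval_prod, Finset.prod_ne_zero_iff]
  intro j _ h0
  simp only [eval_sub, eval_mul, eval_C, eval_X, sub_eq_zero] at h0
  by_cases h1 : (p j).1 = 0
  · have h3 := (hp j).1
    rw [h1, zero_mul] at h0
    rw [mem_sphere_zero_iff_norm, Prod.norm_def, h1, ← h0] at h3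
    simp at h3
  · refine (hp j).2 ⟨h1, ?_⟩
    rw [← h0, mul_div_cancel_left₀ _ h1]
    exact hz

theorem normalize {n : ℕ} {G : Set ℂ} (z : Fin n → ℂ) (hz : ∀ j, z j ∉ G) :
    ∃ (c : ℂ) (p : Fin n → ℂ × ℂ), c ≠ 0 ∧ (∀ j, p j ∈ KK G) ∧
      pol (fun j => ((1:ℂ), z j)) = C c * pol p := by
  have hm : ∀ j, (0:ℝ) < max 1 ‖z j‖ := fun j => lt_of_lt_of_le one_pos (le_max_left _ _)
  refine ⟨∏ j, ((max 1 ‖z j‖ : ℝ) : ℂ), fun j => (1 / ((max 1 ‖z j‖ : ℝ) : ℂ),
    z j / ((max 1 ‖z j‖ : ℝ) : ℂ)), ?_, ?_, ?_⟩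
  · rw [Finset.prod_ne_zero_iff]
    intro j _
    exact_mod_cast (hm j).ne'
  · intro j
    have hne : ((max 1 ‖z j‖ : ℝ) : ℂ) ≠ 0 := by exact_mod_cast (hm j).ne'
    constructor
    · rw [mem_sphere_zero_iff_norm, Prod.norm_def]
      simp only
      rw [norm_div, norm_div, norm_one, Complex.norm_real, Real.norm_eq_abs, abs_of_pos (hm j)]
      rw [max_div_div_right (hm j).le, div_self (hm j).ne']
    · rintro ⟨-, h⟩
      apply hz j
      simp only at h
      rwa [div_div_div_cancel_right₀ hne, div_one] at h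
  · unfold pol
    rw [map_prod, ← Finset.prod_mul_distrib]
    refine Finset.prod_congr rfl fun j _ => ?_
    have hne : ((max 1 ‖z j‖ : ℝ) : ℂ) ≠ 0 := by exact_mod_cast (hm j).ne'
    simp only
    rw [mul_sub, ← mul_assoc, ← C_mul, ← C_mul, mul_one_div_cancel hne, mul_div_cancel₀ _ hne]

theorem adm_pol {n : ℕ} {G : Set ℂ} {P : ℂ[X]} (hn : 0 < n) (hP : Adm G n P) :
    ∃ (c : ℂ) (z : Fin n → ℂ), c ≠ 0 ∧ (∀ j, P.eval (z j) = 0 ∧ z j ∉ G) ∧
      P = C c * pol (fun j => ((1:ℂ), z j)) := by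
  obtain ⟨c, z, hz⟩ := fac n P hP.1
  have hr : ∀ j, P.eval (z j) = 0 := by
    intro j
    rw [hz, eval_mul, pol_root, mul_zero]
  refine ⟨c, z, ?_, fun j => ⟨hr j, fun h => hP.2 _ h (hr j)⟩, hz⟩
  rintro rfl
  have := hP.1
  rw [hz] at this
  simp at this
  omega

theorem exists_ext (m : ℕ) {G : Set ℂ} (hG : IsOpen G) {q : ℝ} (hq : 1 ≤ q)
    {c : ℝ} (hc : (m.factorial : ℝ) * 2 * 2 ^ (m - 1) < c) {Q0 : ℂ[X]} (hQ0 : Adm G (m + 1) Q0)
    (hQc : c < rat q m Q0) :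
    ∃ P, Adm G (m + 1) P ∧ ∀ Q, Adm G (m + 1) Q → rat q m Q ≤ rat q m P := by
  have hK : IsCompact (Set.pi univ fun _ : Fin (m + 1) => KK G) :=
    isCompact_univ_pi fun _ => KK_compact hG
  have key : ∀ Q, Adm G (m + 1) Q → ∃ p ∈ (Set.pi univ fun _ : Fin (m + 1) => KK G),
      rat q m Q = rat q m (pol p) := by
    intro Q hQ
    obtain ⟨a, z, ha, hz, e⟩ := adm_pol (Nat.succ_pos m) hQ
    obtain ⟨b, p, hb, hp, e2⟩ := normalize z fun j => (hz j).2
    refine ⟨p, fun j _ => hp j, ?_⟩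
    rw [e, rat_smul hq m ha, e2, rat_smul hq m hb]
  obtain ⟨p0, hp0, e0⟩ := key Q0 hQ0
  have c1 : Continuous fun p : Fin (m + 1) → ℂ × ℂ => num q m (pol p) := by
    have := (cont_num (m + 1) m).comp (f := fun p : Fin (m + 1) → ℂ × ℂ => (p, q)) (by fun_prop)
    simpa [Function.comp_def, max_eq_left hq] using this
  obtain ⟨p, hp, hmax⟩ := hK.exists_isMaxOn ⟨p0, hp0⟩ (f := fun p => rat q m (pol p))
    (c1.continuousOn.div (cont_den (m + 1)).continuousOn fun p hp =>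
      (den_pos (pol_ne fun j => hp j (mem_univ j))).ne')
  have hpj : ∀ j, p j ∈ KK G := fun j => hp j (mem_univ j)
  have hne := pol_ne hpj
  have hD := den_pos hne
  have hall : ∀ j, (p j).1 ≠ 0 := by
    intro j hj
    have hdeg : (pol p).natDegree ≤ m := by
      unfold pol
      refine (natDegree_prod_le _ _).trans ?_
      have h1 : ∀ i, (C (p i).1 * X - C (p i).2 : ℂ[X]).natDegree ≤ 1 := by
        intro i
        rw [natDegree_sub_C]
        exact (natDegree_C_mul_le _ _).trans natDegree_X_le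
      rw [← Finset.add_sum_erase _ _ (Finset.mem_univ j)]
      have h2 : (C (p j).1 * X - C (p j).2 : ℂ[X]).natDegree = 0 := by
        rw [hj, map_zero, zero_mul, zero_sub, natDegree_neg, natDegree_C]
      rw [h2, zero_add]
      refine (Finset.sum_le_sum fun i _ => h1 i).trans ?_
      rw [Finset.sum_const, Finset.card_erase_of_mem (Finset.mem_univ j), Finset.card_univ,
        Fintype.card_fin]
      simp
    have h3 := low m q hq (pol p) hdeg hne
    have h4 : rat q m (pol p) ≤ (m.factorial : ℝ) * 2 * 2 ^ (m - 1) := by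
      unfold rat
      rw [div_le_iff₀ hD]
      exact h3
    have h5 : rat q m (pol p0) ≤ rat q m (pol p) := hmax hp0
    rw [← e0] at h5
    linarith
  refine ⟨pol p, ⟨?_, pol_adm hpj⟩, fun Q hQ => ?_⟩
  · unfold pol
    rw [natDegree_prod _ _ fun j _ h0 => ?_]
    · have : ∀ j, (C (p j).1 * X - C (p j).2 : ℂ[X]).natDegree = 1 := by
        intro j
        rw [natDegree_sub_C, natDegree_C_mul_X _ (hall j)]
      simp [this]
    · apply hne
      unfold pol
      exact Finset.prod_eq_zero (Finset.mem_univ j) h0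
  · obtain ⟨p1, hp1, e1⟩ := key Q hQ
    rw [e1]
    exact hmax hp1

end Pool.Agent.KS6_44.EZ
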